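import Mathlib
import Pool.Agent.W470.Sen.Defs

set_option autoImplicit false

/-!
# SEN-SMALL: the final inequality for `5 <= m <= 79`

A cell lemma for real numbers, and a check of 75 * 64 cells in the kernel.
-/

namespace Pool.Agent.W64.Sen

open Pool.Agent.W470.Sen

theorem sqrt_pow_le (x G : ℝ) (n : ℕ) (hG : 0 ≤ G) (hG1 : G ≤ 1) (hx : x ≤ G) :
    Real.sqrt x ^ n ≤ G ^ (n / 2) := by
  have h1 : Real.sqrt x ≤ Real.sqrt G := Real.sqrt_le_sqrt hx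
  have h2 : Real.sqrt x ^ n ≤ Real.sqrt G ^ n := pow_le_pow_left₀ (Real.sqrt_nonneg _) h1 n
  refine h2.trans ?_
  have h3 : n = 2 * (n / 2) + n % 2 := (Nat.div_add_mod n 2).symm
  have hs1 : Real.sqrt G ≤ 1 := by
    rw [← Real.sqrt_one]; exact Real.sqrt_le_sqrt hG1
  calc Real.sqrt G ^ n = Real.sqrt G ^ (2 * (n / 2) + n % 2) := by rw [← h3]
    _ = (Real.sqrt G ^ 2) ^ (n / 2) * Real.sqrt G ^ (n % 2) := by rw [pow_add, pow_mul]
    _ = G ^ (n / 2) * Real.sqrt G ^ (n % 2) := by rw [Real.sq_sqrt hG]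
    _ ≤ G ^ (n / 2) * 1 := by
        apply mul_le_mul_of_nonneg_left _ (pow_nonneg hG _)
        exact pow_le_one₀ (Real.sqrt_nonneg _) hs1
    _ = G ^ (n / 2) := mul_one _

theorem sqrt_exp_one_le : Real.sqrt (Real.exp 1) ≤ 1.6488 := by
  rw [show (1.6488 : ℝ) = Real.sqrt (1.6488 ^ 2) from (Real.sqrt_sq (by norm_num)).symm]
  apply Real.sqrt_le_sqrt
  have := Real.exp_one_lt_d9
  norm_num at this ⊢
  linarith

theorem D1_mul (m : ℕ) (ε : ℝ) (hε0 : 0 < ε) (hε1 : ε < 1) :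
    D1 m (1 - ε) * ((3 + m * ε) ^ 2 * (2 - ε)) = 3 * (6 + (2 * m + 3) * ε) := by
  have hC : 0 < 2 - ε := by linarith
  unfold D1
  rw [show 1 - (1 - ε) = ε by ring, show 1 + (1 - ε) = 2 - ε by ring]
  rw [div_mul_cancel₀]
  positivity

/-- step 1 -/
theorem step1 (m : ℕ) (ε e0 e1 d : ℝ) (hε0 : 0 < ε) (hε1 : ε < 1) (he0 : 0 ≤ e0) (h0 : e0 ≤ ε)
    (h1 : ε ≤ e1) (hd0 : 0 < d)
    (hd : d * ((3 + m * e1) * (3 + m * e0) * (2 - e0)) ≤ 3 * (6 + (2 * m + 3) * e0)) :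
    d ≤ D1 m (1 - ε) := by
  have hM : (0 : ℝ) ≤ (m : ℝ) := Nat.cast_nonneg m
  have hDD := D1_mul m ε hε0 hε1
  generalize (m : ℝ) = M at *
  generalize D1 m (1 - ε) = D at *
  have he10 : 0 < e1 := by linarith
  have hB : 0 < 3 + M * ε := by positivity
  have hB0 : 0 < 3 + M * e0 := by positivity
  have hB1 : 0 < 3 + M * e1 := by positivity
  have hC : 0 < 2 - ε := by linarith
  have hBC : 0 < (3 + M * ε) ^ 2 * (2 - ε) := by positivity
  have hAB : (6 + (2 * M + 3) * e0) * (3 + M * ε) ≤ (6 + (2 * M + 3) * ε) * (3 + M * e0) := by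
    have : (6 + (2 * M + 3) * ε) * (3 + M * e0) - (6 + (2 * M + 3) * e0) * (3 + M * ε)
        = 9 * (ε - e0) := by ring
    linarith
  have hx1 : d * ((3 + M * ε) * (3 + M * e0) * (2 - ε)) ≤
      d * ((3 + M * e1) * (3 + M * e0) * (2 - e0)) := by
    apply mul_le_mul_of_nonneg_left _ hd0.le
    apply mul_le_mul _ (by linarith) hC.le (by positivity)
    apply mul_le_mul_of_nonneg_right _ hB0.le
    have := mul_le_mul_of_nonneg_left h1 hM
    linarith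
  have hx2 : d * ((3 + M * ε) * (3 + M * e0) * (2 - ε)) ≤ 3 * (6 + (2 * M + 3) * e0) :=
    hx1.trans hd
  have hx3 : d * ((3 + M * ε) * (3 + M * e0) * (2 - ε)) * (3 + M * ε) ≤
      3 * ((6 + (2 * M + 3) * ε) * (3 + M * e0)) := by
    calc d * ((3 + M * ε) * (3 + M * e0) * (2 - ε)) * (3 + M * ε)
        ≤ 3 * (6 + (2 * M + 3) * e0) * (3 + M * ε) :=
          mul_le_mul_of_nonneg_right hx2 hB.le
      _ = 3 * ((6 + (2 * M + 3) * e0) * (3 + M * ε)) := by ring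
      _ ≤ _ := mul_le_mul_of_nonneg_left hAB (by norm_num)
  have hx4 : (d * ((3 + M * ε) ^ 2 * (2 - ε))) * (3 + M * e0) ≤
      (D * ((3 + M * ε) ^ 2 * (2 - ε))) * (3 + M * e0) := by
    rw [hDD]
    calc (d * ((3 + M * ε) ^ 2 * (2 - ε))) * (3 + M * e0)
        = d * ((3 + M * ε) * (3 + M * e0) * (2 - ε)) * (3 + M * ε) := by ring
      _ ≤ _ := hx3
      _ = _ := by ring
  have hx5 := le_of_mul_le_mul_right hx4 hB0
  exact le_of_mul_le_mul_right hx5 hBC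

/-- step 5 -/
theorem step5 (m : ℕ) (hm : 5 ≤ m) (ε e0 e1 D rho : ℝ) (hε0 : 0 < ε) (hε1 : ε < 1)
    (he0 : 0 ≤ e0) (h0 : e0 ≤ ε) (h1 : ε ≤ e1) (he1 : e1 ≤ 1) (hD : D1 m (1 - ε) ≤ D)
    (hrho0 : 0 ≤ rho) (hrho : 2 * (m - 3) ≤ rho * ((3 + m * e0) * (2 - e1))) :
    1 - D ≤ rho * ε := by
  have hM : (5 : ℝ) ≤ (m : ℝ) := by exact_mod_cast hm
  have hDD := D1_mul m ε hε0 hε1
  generalize (m : ℝ) = M at *
  generalize D1 m (1 - ε) = D' at *
  have hM0 : 0 ≤ M := by linarith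
  have hB : 0 < 3 + M * ε := by positivity
  have hB0 : 0 < 3 + M * e0 := by positivity
  have hC : 0 < 2 - ε := by linarith
  have hBC : 0 < (3 + M * ε) ^ 2 * (2 - ε) := by positivity
  have z1 : (1 - D) * ((3 + M * ε) ^ 2 * (2 - ε)) ≤
      (1 - D') * ((3 + M * ε) ^ 2 * (2 - ε)) :=
    mul_le_mul_of_nonneg_right (by linarith) hBC.le
  have z2 : (1 - D') * ((3 + M * ε) ^ 2 * (2 - ε)) =
      ε * (2 * (M - 3) * (3 + M * ε) - M ^ 2 * ε ^ 2) := by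
    rw [sub_mul, hDD]; ring
  have z3 : (1 - D) * ((3 + M * ε) * (2 - ε)) * (3 + M * ε) ≤
      (2 * (M - 3) * ε) * (3 + M * ε) := by
    have hp : 0 ≤ ε * (M ^ 2 * ε ^ 2) := by positivity
    calc (1 - D) * ((3 + M * ε) * (2 - ε)) * (3 + M * ε)
        = (1 - D) * ((3 + M * ε) ^ 2 * (2 - ε)) := by ring
      _ ≤ ε * (2 * (M - 3) * (3 + M * ε) - M ^ 2 * ε ^ 2) := z1.trans z2.le
      _ = (2 * (M - 3) * ε) * (3 + M * ε) - ε * (M ^ 2 * ε ^ 2) := by ring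
      _ ≤ _ := by linarith
  have z4 := le_of_mul_le_mul_right z3 hB
  have z5 : (3 + M * e0) * (2 - e1) ≤ (3 + M * ε) * (2 - ε) := by
    apply mul_le_mul _ (by linarith) (by linarith) hB.le
    have := mul_le_mul_of_nonneg_left h0 hM0
    linarith
  have z6 : 2 * (M - 3) ≤ rho * ((3 + M * ε) * (2 - ε)) :=
    hrho.trans (mul_le_mul_of_nonneg_left z5 hrho0)
  have z7 : (1 - D) * ((3 + M * ε) * (2 - ε)) ≤ (rho * ε) * ((3 + M * ε) * (2 - ε)) := by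
    calc (1 - D) * ((3 + M * ε) * (2 - ε)) ≤ 2 * (M - 3) * ε := z4
      _ ≤ rho * ((3 + M * ε) * (2 - ε)) * ε := mul_le_mul_of_nonneg_right z6 hε0.le
      _ = _ := by ring
  exact le_of_mul_le_mul_right z7 (by positivity)

/-- step 6, first bound -/
theorem step6a (a Φ e0 Ph bl : ℝ) (ha : 0 < a) (ha1 : a < 1)
    (hΦ1 : Φ ≤ 2 * (1 - Real.sqrt (1 - a ^ 2))) (h0 : a ≤ 1 - e0)
    (hbl0 : 0 ≤ bl) (hbl1 : bl ^ 2 ≤ 1 - (1 - e0) ^ 2)
    (hbl2 : 2 * (1 - e0) ^ 2 ≤ Ph * (1 + bl)) : Φ ≤ Ph := by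
  have ha2 : a ^ 2 ≤ (1 - e0) ^ 2 := pow_le_pow_left₀ ha.le h0 2
  have hs : bl ≤ Real.sqrt (1 - a ^ 2) := by
    apply Real.le_sqrt_of_sq_le
    linarith
  have haa : a ^ 2 ≤ 1 := by nlinarith
  have hss : Real.sqrt (1 - a ^ 2) ^ 2 = 1 - a ^ 2 := Real.sq_sqrt (by linarith)
  have hs1 : Real.sqrt (1 - a ^ 2) ≤ 1 := Real.sqrt_le_one.mpr (by nlinarith)
  have w1 : Φ * (1 + bl) ≤ Ph * (1 + bl) := by
    calc Φ * (1 + bl) ≤ (2 * (1 - Real.sqrt (1 - a ^ 2))) * (1 + Real.sqrt (1 - a ^ 2)) := by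
          apply mul_le_mul hΦ1 (by linarith) (by linarith) (by linarith)
      _ = 2 * a ^ 2 := by linear_combination (-2) * hss
      _ ≤ 2 * (1 - e0) ^ 2 := by linarith
      _ ≤ _ := hbl2
  exact le_of_mul_le_mul_right w1 (by linarith)

/-- step 6, second bound -/
theorem step6b (ε D Φ e0 e1 rho Ph : ℝ) (hε0 : 0 < ε) (hε1 : ε < 1) (hΦ0 : 0 ≤ Φ)
    (hΦ2 : Φ * (2 - (1 - ε) ^ 2 - D) ≤ 2 * (1 - ε) * (2 * (1 - ε) - (1 - ε) ^ 2 - D))
    (hD1 : D ≤ 1) (hy : 1 - D ≤ rho * ε) (h0 : e0 ≤ ε)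
    (h1 : ε ≤ e1) (he1 : e1 ≤ 1) (hrho0 : 0 ≤ rho)
    (hPh : 2 * (1 - e0) * rho ≤ Ph * (rho + 2 - e1)) : Φ ≤ Ph := by
  have hDen : 0 < (1 - D) + ε * (2 - ε) := by
    have : 0 < ε * (2 - ε) := mul_pos hε0 (by linarith)
    linarith
  have v1 : Φ * ((1 - D) + ε * (2 - ε)) ≤ 2 * (1 - ε) * ((1 - D) - ε ^ 2) := by
    calc Φ * ((1 - D) + ε * (2 - ε)) = Φ * (2 - (1 - ε) ^ 2 - D) := by ring
      _ ≤ _ := hΦ2
      _ = _ := by ring
  have hr2 : 0 < rho + 2 - ε := by linarith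
  have v2 : ((1 - D) - ε ^ 2) * (rho + 2 - ε) ≤ (rho - ε) * ((1 - D) + ε * (2 - ε)) := by
    have : ((1 - D) - ε ^ 2) * (rho + 2 - ε) - (rho - ε) * ((1 - D) + ε * (2 - ε))
      = 2 * ((1 - D) - rho * ε) := by ring
    linarith
  have v3 : Φ * (rho + 2 - ε) * ((1 - D) + ε * (2 - ε)) ≤
      (2 * (1 - ε) * (rho - ε)) * ((1 - D) + ε * (2 - ε)) := by
    calc Φ * (rho + 2 - ε) * ((1 - D) + ε * (2 - ε))
        = (Φ * ((1 - D) + ε * (2 - ε))) * (rho + 2 - ε) := by ring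
      _ ≤ (2 * (1 - ε) * ((1 - D) - ε ^ 2)) * (rho + 2 - ε) :=
          mul_le_mul_of_nonneg_right v1 hr2.le
      _ = 2 * (1 - ε) * (((1 - D) - ε ^ 2) * (rho + 2 - ε)) := by ring
      _ ≤ 2 * (1 - ε) * ((rho - ε) * ((1 - D) + ε * (2 - ε))) :=
          mul_le_mul_of_nonneg_left v2 (by linarith)
      _ = _ := by ring
  have v4 := le_of_mul_le_mul_right v3 hDen
  have v5 : Φ * (rho + 2 - e1) ≤ Ph * (rho + 2 - e1) := by
    calc Φ * (rho + 2 - e1) ≤ Φ * (rho + 2 - ε) :=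
          mul_le_mul_of_nonneg_left (by linarith) hΦ0
      _ ≤ 2 * (1 - ε) * (rho - ε) := v4
      _ ≤ 2 * (1 - ε) * rho := mul_le_mul_of_nonneg_left (by linarith) (by linarith)
      _ ≤ 2 * (1 - e0) * rho := mul_le_mul_of_nonneg_right (by linarith) hrho0
      _ ≤ _ := hPh
  exact le_of_mul_le_mul_right v5 (by linarith)

/-- step 7 -/
theorem step7 (m : ℕ) (hm : 5 ≤ m) (ε D d rho : ℝ) (hε0 : 0 < ε) (hD1 : D ≤ 1)
    (hy : 1 - D ≤ rho * ε) (hdD : d ≤ D) (hd0 : 0 < d) (hrho0 : 0 ≤ rho) :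
    (Real.sqrt (1 - D)) ^ (m + 1) / ε ≤ rho * (1 - d) ^ ((m - 1) / 2) := by
  rw [div_le_iff₀ hε0]
  have hy0 : 0 ≤ 1 - D := by linarith
  have u1 : (Real.sqrt (1 - D)) ^ (m + 1) = (1 - D) * Real.sqrt (1 - D) ^ (m - 1) := by
    rw [show m + 1 = 2 + (m - 1) by omega, pow_add, Real.sq_sqrt hy0]
  rw [u1]
  have u2 := sqrt_pow_le (1 - D) (1 - d) (m - 1) (by linarith) (by linarith) (by linarith)
  calc (1 - D) * Real.sqrt (1 - D) ^ (m - 1)
      ≤ (rho * ε) * (1 - d) ^ ((m - 1) / 2) :=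
        mul_le_mul hy u2 (pow_nonneg (Real.sqrt_nonneg _) _) (by positivity)
    _ = _ := by ring

/-- step 9 -/
theorem step9 (m : ℕ) (a D Φ d k G Ph : ℝ) 
    (hΦ0 : 0 ≤ Φ) (hΦPh : Φ ≤ Ph) (hk0 : 0 < k) (hkK : k ≤ D + 2 / 5 * a ^ 2)
    (hD1 : D ≤ 1) (hdD : d ≤ D)
    (hG1 : 1 - 3 / 5 * k ≤ G) (hG2 : 1 - d ≤ G) (hGle : G ≤ 1) :
    Real.sqrt (Real.exp 1) * Φ *
        (4 / ((m + 2) * (D + 2 / 5 * a ^ 2) ^ 2)
          + 8 / 25 * m * (Real.sqrt (max (1 - 3 / 5 * (D + 2 / 5 * a ^ 2)) (1 - D))) ^ (m - 2))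
      ≤ 1.6488 * Ph * (4 / ((m + 2) * k ^ 2) + 8 / 25 * m * G ^ ((m - 2) / 2)) := by
  have hG0 : 0 ≤ G := by linarith
  have hmaxG : max (1 - 3 / 5 * (D + 2 / 5 * a ^ 2)) (1 - D) ≤ G := by
    apply max_le <;> linarith
  have hX := sqrt_pow_le _ G (m - 2) hG0 hGle hmaxG
  have hPh0 : 0 ≤ Ph := hΦ0.trans hΦPh
  have hM : (0 : ℝ) ≤ (m : ℝ) := Nat.cast_nonneg m
  have hQ : 4 / (((m : ℝ) + 2) * (D + 2 / 5 * a ^ 2) ^ 2)
          + 8 / 25 * m * (Real.sqrt (max (1 - 3 / 5 * (D + 2 / 5 * a ^ 2)) (1 - D))) ^ (m - 2)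
      ≤ 4 / ((m + 2) * k ^ 2) + 8 / 25 * m * G ^ ((m - 2) / 2) := by
    apply add_le_add
    · apply div_le_div_of_nonneg_left (by norm_num) (by positivity)
      apply mul_le_mul_of_nonneg_left _ (by linarith)
      exact pow_le_pow_left₀ hk0.le hkK 2
    · exact mul_le_mul_of_nonneg_left hX (by positivity)
  have hQ0 : 0 ≤ 4 / (((m : ℝ) + 2) * (D + 2 / 5 * a ^ 2) ^ 2)
          + 8 / 25 * m * (Real.sqrt (max (1 - 3 / 5 * (D + 2 / 5 * a ^ 2)) (1 - D))) ^ (m - 2) := by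
    positivity
  have hEΦ : Real.sqrt (Real.exp 1) * Φ ≤ 1.6488 * Ph :=
    mul_le_mul sqrt_exp_one_le hΦPh hΦ0 (by norm_num)
  exact mul_le_mul hEΦ hQ hQ0 (mul_nonneg (by norm_num) hPh0)

/-- the cell lemma -/
theorem core (m : ℕ) (hm : 5 ≤ m) (a D Φ e0 e1 d k G rho Ph bl : ℝ)
    (ha : 0 < a) (ha1 : a < 1) (hD : D1 m a ≤ D) (hD1 : D ≤ 1) (hΦ0 : 0 ≤ Φ)
    (hΦ1 : Φ ≤ 2 * (1 - Real.sqrt (1 - a ^ 2)))
    (hΦ2 : Φ * (2 - a ^ 2 - D) ≤ 2 * a * (2 * a - a ^ 2 - D))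
    (he0 : 0 ≤ e0) (h0 : e0 ≤ 1 - a) (h1 : 1 - a ≤ e1) (he1 : e1 ≤ 1)
    (hd0 : 0 < d)
    (hd : d * ((3 + m * e1) * (3 + m * e0) * (2 - e0)) ≤ 3 * (6 + (2 * m + 3) * e0))
    (hk0 : 0 < k) (hk : k ≤ d + 2 / 5 * (1 - e1) ^ 2)
    (hG1 : 1 - 3 / 5 * k ≤ G) (hG2 : 1 - d ≤ G) (hGle : G ≤ 1)
    (hrho0 : 0 ≤ rho) (hrho : 2 * (m - 3) ≤ rho * ((3 + m * e0) * (2 - e1)))
    (hPh : (0 ≤ bl ∧ bl ^ 2 ≤ 1 - (1 - e0) ^ 2 ∧ 2 * (1 - e0) ^ 2 ≤ Ph * (1 + bl)) ∨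
      2 * (1 - e0) * rho ≤ Ph * (rho + 2 - e1))
    (final : 1.6488 * Ph * (4 / ((m + 2) * k ^ 2) + 8 / 25 * m * G ^ ((m - 2) / 2))
      + rho * (1 - d) ^ ((m - 1) / 2) < 1) :
    Real.sqrt (Real.exp 1) * Φ *
        (4 / ((m + 2) * (D + 2 / 5 * a ^ 2) ^ 2)
          + 8 / 25 * m * (Real.sqrt (max (1 - 3 / 5 * (D + 2 / 5 * a ^ 2)) (1 - D))) ^ (m - 2))
      + (Real.sqrt (1 - D)) ^ (m + 1) / (1 - a) < 1 := by
  obtain ⟨ε, hε⟩ : ∃ ε : ℝ, ε = 1 - a := ⟨_, rfl⟩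
  have haε : a = 1 - ε := by rw [hε]; ring
  have hε0 : 0 < ε := by rw [hε]; linarith
  have hε1 : ε < 1 := by rw [hε]; linarith
  rw [← hε] at h0 h1
  have hDε : D1 m (1 - ε) ≤ D := by rw [← haε]; exact hD
  have hdD : d ≤ D := (step1 m ε e0 e1 d hε0 hε1 he0 h0 h1 hd0 hd).trans hDε
  have hkK : k ≤ D + 2 / 5 * a ^ 2 := by
    have : (1 - e1) ^ 2 ≤ a ^ 2 := by
      apply pow_le_pow_left₀ (by linarith)
      linarith
    linarith
  have hy : 1 - D ≤ rho * ε := step5 m hm ε e0 e1 D rho hε0 hε1 he0 h0 h1 he1 hDε hrho0 hrho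
  have hΦPh : Φ ≤ Ph := by
    rcases hPh with ⟨hbl0, hbl1, hbl2⟩ | hPh
    · exact step6a a Φ e0 Ph bl ha ha1 hΦ1 (by linarith) hbl0 hbl1 hbl2
    · rw [haε] at hΦ2
      exact step6b ε D Φ e0 e1 rho Ph hε0 hε1 hΦ0 hΦ2 hD1 hy h0 h1 he1 hrho0 hPh
  have hT3 := step7 m hm ε D d rho hε0 hD1 hy hdD hd0 hrho0
  rw [hε] at hT3
  have h9 := step9 m a D Φ d k G Ph hΦ0 hΦPh hk0 hkK hD1 hdD hG1 hG2 hGle
  linarith

/-! ### the check -/

/-- lower bounds of `10^6 * sqrt (1 - ((64-p)/64)^2)` -/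
def tb : List ℕ := [0, 176084, 248039, 302576, 347985, 387487, 422742, 454738, 484122, 511345, 536736, 560543, 582961, 604144, 624218, 643287, 661437, 678743, 695268, 711066, 726184, 740664, 754543, 767853, 780624, 792882, 804649, 815948, 826797, 837214, 847215, 856814, 866025, 874860, 883330, 891446, 899218, 906654, 913761, 920549, 927024, 933193, 939061, 944634, 949917, 954916, 959634, 964076, 968245, 972146, 975780, 979152, 982264, 985118, 987717, 990062, 992156, 994000, 995595, 996943, 998044, 998900, 999511, 999877]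

/-- `10^6 d`, rounded down -/
def dN (m p : ℕ) : ℕ :=
  1000000 * 3 * 64 * (384 + (2 * m + 3) * p) * 64 /
    ((192 + m * (p + 1)) * (192 + m * p) * (128 - p))

/-- `10^6 k`, rounded down -/
def kN (p d : ℕ) : ℕ := d + 2000000 * (63 - p) ^ 2 / 20480

/-- `5 * 10^6 * G` -/
def GN (k d : ℕ) : ℕ := max (5000000 - 3 * k) (5000000 - 5 * d)

/-- `10^6 rho`, rounded up -/
def rN (m p : ℕ) : ℕ := 1000000 * 2 * (m - 3) * 4096 / ((192 + m * p) * (127 - p)) + 1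

/-- first bound of `10^6 Phi`, rounded up -/
def P1 (p : ℕ) : ℕ :=
  1000000 * 2 * (64 - p) ^ 2 * 1000000 / (4096 * (1000000 + tb.getD p 0)) + 1

/-- second bound of `10^6 Phi`, rounded up -/
def P2 (p r : ℕ) : ℕ := 1000000 * 2 * (64 - p) * r / (64 * r + 1000000 * (127 - p)) + 1

/-- `10^6 * 4 / ((m+2) k^2)` -/
def T1 (m k : ℕ) : ℕ := 4000000000000000000 / ((m + 2) * k ^ 2) + 1

/-- `10^6 * (8/25) m G^j` -/
def T2 (m G : ℕ) : ℕ :=
  8000000 * m * G ^ ((m - 2) / 2) / (25 * 5000000 ^ ((m - 2) / 2)) + 1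

/-- `10^6 * rho (1-d)^l` -/
def T3 (m d r : ℕ) : ℕ := r * (1000000 - d) ^ ((m - 1) / 2) / 1000000 ^ ((m - 1) / 2) + 1

/-- final part of the check -/
def fin (m d k G r P : ℕ) : Bool :=
  Nat.blt (16488 * P * (T1 m k + T2 m G) + 10000000000 * T3 m d r) 10000000000000000

/-- the check of the cell `p/64 <= 1 - a <= (p+1)/64` -/
def chk (m p : ℕ) : Bool :=
  Nat.ble ((tb.getD p 0) ^ 2 * 4096) (1000000000000 * (4096 - (64 - p) ^ 2)) &&
  Nat.ble 1 (dN m p) && Nat.ble (dN m p) 1000000 && 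
  fin m (dN m p) (kN p (dN m p)) (GN (kN p (dN m p)) (dN m p)) (rN m p)
    (min (P1 p) (P2 p (rN m p)))

theorem all_ok : ∀ m < 75, ∀ p < 64, chk (m + 5) p = true := by
  decide +kernel


theorem fl (x y : ℕ) : ((x / y : ℕ) : ℝ) * y ≤ x := by
  exact_mod_cast Nat.div_mul_le_self x y

theorem ce (x y : ℕ) (hy : 0 < y) : (x : ℝ) ≤ ((x / y + 1 : ℕ) : ℝ) * y := by
  have h : x ≤ (x / y + 1) * y := by
    have h1 := Nat.div_add_mod x y
    have h2 := Nat.mod_lt x hy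
    calc x = y * (x / y) + x % y := h1.symm
      _ ≤ y * (x / y) + y := by omega
      _ = _ := by ring
  exact_mod_cast h

theorem hd_real (m p : ℕ) (hp : p < 64) :
    ((dN m p : ℕ) : ℝ) / 1000000 *
      ((3 + m * (((p : ℝ) + 1) / 64)) * (3 + m * ((p : ℝ) / 64)) * (2 - (p : ℝ) / 64)) ≤
      3 * (6 + (2 * m + 3) * ((p : ℝ) / 64)) := by
  have h := fl (1000000 * 3 * 64 * (384 + (2 * m + 3) * p) * 64)
    ((192 + m * (p + 1)) * (192 + m * p) * (128 - p))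
  have hc : ((128 - p : ℕ) : ℝ) = 128 - (p : ℝ) := by
    rw [Nat.cast_sub (by omega)]; norm_num
  push_cast [hc] at h
  change ((dN m p : ℕ) : ℝ) * _ ≤ _ at h
  generalize ((dN m p : ℕ) : ℝ) = d at *
  calc d / 1000000 *
      ((3 + m * (((p : ℝ) + 1) / 64)) * (3 + m * ((p : ℝ) / 64)) * (2 - (p : ℝ) / 64))
      = d * ((192 + m * (p + 1)) * (192 + m * p) * (128 - p)) / 262144000000 := by ring
    _ ≤ (192000000 * (384 + (2 * m + 3) * p) * 64) / 262144000000 :=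
        div_le_div_of_nonneg_right h (by norm_num)
    _ = _ := by ring

theorem hk_real (p d : ℕ) (hp : p < 64) :
    ((kN p d : ℕ) : ℝ) / 1000000 ≤
      (d : ℝ) / 1000000 + 2 / 5 * (1 - ((p : ℝ) + 1) / 64) ^ 2 := by
  have h := fl (2000000 * (63 - p) ^ 2) 20480
  have hc : ((63 - p : ℕ) : ℝ) = 63 - (p : ℝ) := by
    rw [Nat.cast_sub (by omega)]; norm_num
  push_cast [hc] at h
  unfold kN
  push_cast
  have e : 2 / 5 * (1 - ((p : ℝ) + 1) / 64) ^ 2 =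
      (2000000 * (63 - (p : ℝ)) ^ 2) / 20480 / 1000000 := by ring
  rw [e]
  linarith

theorem hr_real (m p : ℕ) (hm : 5 ≤ m) (hp : p < 64) :
    2 * ((m : ℝ) - 3) ≤ ((rN m p : ℕ) : ℝ) / 1000000 *
      ((3 + m * ((p : ℝ) / 64)) * (2 - ((p : ℝ) + 1) / 64)) := by
  have h := ce (1000000 * 2 * (m - 3) * 4096) ((192 + m * p) * (127 - p))
    (Nat.mul_pos (by omega) (by omega))
  have hc : ((127 - p : ℕ) : ℝ) = 127 - (p : ℝ) := by
    rw [Nat.cast_sub (by omega)]; norm_num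
  have hc2 : ((m - 3 : ℕ) : ℝ) = (m : ℝ) - 3 := by
    rw [Nat.cast_sub (by omega)]; norm_num
  change _ ≤ ((rN m p : ℕ) : ℝ) * _ at h
  generalize ((rN m p : ℕ) : ℝ) = r at *
  push_cast [hc, hc2] at h
  calc 2 * ((m : ℝ) - 3) = (2000000 * (m - 3) * 4096) / 4096000000 := by ring
    _ ≤ (r * ((192 + m * p) * (127 - p))) / 4096000000 :=
        div_le_div_of_nonneg_right h (by norm_num)
    _ = _ := by ring

theorem hP1_real (p : ℕ) (hp : p < 64) :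
    2 * (1 - (p : ℝ) / 64) ^ 2 ≤ ((P1 p : ℕ) : ℝ) / 1000000 *
      (1 + ((tb.getD p 0 : ℕ) : ℝ) / 1000000) := by
  have h := ce (1000000 * 2 * (64 - p) ^ 2 * 1000000) (4096 * (1000000 + tb.getD p 0))
    (Nat.mul_pos (by omega) (by omega))
  have hc : ((64 - p : ℕ) : ℝ) = 64 - (p : ℝ) := by
    rw [Nat.cast_sub (by omega)]; norm_num
  change _ ≤ ((P1 p : ℕ) : ℝ) * _ at h
  generalize ((P1 p : ℕ) : ℝ) = r at *
  push_cast [hc] at h
  generalize ((tb.getD p 0 : ℕ) : ℝ) = b at *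
  calc 2 * (1 - (p : ℝ) / 64) ^ 2
      = (2000000 * (64 - (p : ℝ)) ^ 2 * 1000000) / 4096000000000000 := by ring
    _ ≤ (r * (4096 * (1000000 + b))) / 4096000000000000 :=
        div_le_div_of_nonneg_right h (by norm_num)
    _ = _ := by ring

theorem hP2_real (p r : ℕ) (hp : p < 64) :
    2 * (1 - (p : ℝ) / 64) * ((r : ℝ) / 1000000) ≤ ((P2 p r : ℕ) : ℝ) / 1000000 *
      ((r : ℝ) / 1000000 + 2 - ((p : ℝ) + 1) / 64) := by
  have h := ce (1000000 * 2 * (64 - p) * r) (64 * r + 1000000 * (127 - p)) (by omega)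
  have hc : ((64 - p : ℕ) : ℝ) = 64 - (p : ℝ) := by
    rw [Nat.cast_sub (by omega)]; norm_num
  have hc2 : ((127 - p : ℕ) : ℝ) = 127 - (p : ℝ) := by
    rw [Nat.cast_sub (by omega)]; norm_num
  change _ ≤ ((P2 p r : ℕ) : ℝ) * _ at h
  generalize ((P2 p r : ℕ) : ℝ) = t at *
  push_cast [hc, hc2] at h
  calc 2 * (1 - (p : ℝ) / 64) * ((r : ℝ) / 1000000)
      = (2000000 * (64 - (p : ℝ)) * r) / 64000000000000 := by ring
    _ ≤ (t * (64 * r + 1000000 * (127 - p))) / 64000000000000 :=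
        div_le_div_of_nonneg_right h (by norm_num)
    _ = _ := by ring

theorem hT1_real (m k : ℕ) (hk : 1 ≤ k) :
    4 / (((m : ℝ) + 2) * ((k : ℝ) / 1000000) ^ 2) ≤ ((T1 m k : ℕ) : ℝ) / 1000000 := by
  have h := ce 4000000000000000000 ((m + 2) * k ^ 2) (by positivity)
  change _ ≤ ((T1 m k : ℕ) : ℝ) * _ at h
  generalize ((T1 m k : ℕ) : ℝ) = t at *
  push_cast at h
  have hk0 : (0 : ℝ) < k := by exact_mod_cast hk
  rw [div_le_iff₀ (by positivity)]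
  calc (4 : ℝ) = 4000000000000000000 / 1000000000000000000 := by norm_num
    _ ≤ (t * ((m + 2) * k ^ 2)) / 1000000000000000000 :=
        div_le_div_of_nonneg_right h (by norm_num)
    _ = _ := by ring

theorem hT2_real (m G : ℕ) :
    8 / 25 * (m : ℝ) * ((G : ℝ) / 5000000) ^ ((m - 2) / 2) ≤ ((T2 m G : ℕ) : ℝ) / 1000000 := by
  have h := ce (8000000 * m * G ^ ((m - 2) / 2)) (25 * 5000000 ^ ((m - 2) / 2)) (by positivity)
  change _ ≤ ((T2 m G : ℕ) : ℝ) * _ at h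
  generalize ((T2 m G : ℕ) : ℝ) = t at *
  push_cast at h
  generalize (m - 2) / 2 = j at *
  rw [div_pow]
  have h5 : (0 : ℝ) < 5000000 ^ j := by positivity
  calc 8 / 25 * (m : ℝ) * ((G : ℝ) ^ j / 5000000 ^ j)
      = (8000000 * m * (G : ℝ) ^ j) / (25000000 * 5000000 ^ j) := by
        field_simp
        ring
    _ ≤ (t * (25 * 5000000 ^ j)) / (25000000 * 5000000 ^ j) :=
        div_le_div_of_nonneg_right h (by positivity)
    _ = t / 1000000 := by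
        field_simp
        ring

theorem hT3_real (m d r : ℕ) (hd : d ≤ 1000000) :
    (r : ℝ) / 1000000 * (1 - (d : ℝ) / 1000000) ^ ((m - 1) / 2) ≤
      ((T3 m d r : ℕ) : ℝ) / 1000000 := by
  have h := ce (r * (1000000 - d) ^ ((m - 1) / 2)) (1000000 ^ ((m - 1) / 2)) (by positivity)
  have hc : ((1000000 - d : ℕ) : ℝ) = 1000000 - (d : ℝ) := by
    rw [Nat.cast_sub hd]; norm_num
  change _ ≤ ((T3 m d r : ℕ) : ℝ) * _ at h
  generalize ((T3 m d r : ℕ) : ℝ) = t at *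
  push_cast [hc] at h
  generalize (m - 1) / 2 = j at *
  rw [show (1 - (d : ℝ) / 1000000) = (1000000 - d) / 1000000 by ring, div_pow]
  have h5 : (0 : ℝ) < 1000000 ^ j := by positivity
  calc (r : ℝ) / 1000000 * ((1000000 - (d : ℝ)) ^ j / 1000000 ^ j)
      = (r * (1000000 - (d : ℝ)) ^ j) / 1000000 ^ j / 1000000 := by ring
    _ ≤ t / 1000000 := by
        apply div_le_div_of_nonneg_right _ (by norm_num)
        rw [div_le_iff₀ h5]
        exact h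

theorem fin_real (m d k G r P : ℕ) (hk : 1 ≤ k) (hd : d ≤ 1000000)
    (h : fin m d k G r P = true) :
    1.6488 * ((P : ℝ) / 1000000) * (4 / (((m : ℝ) + 2) * ((k : ℝ) / 1000000) ^ 2)
      + 8 / 25 * m * ((G : ℝ) / 5000000) ^ ((m - 2) / 2))
      + (r : ℝ) / 1000000 * (1 - (d : ℝ) / 1000000) ^ ((m - 1) / 2) < 1 := by
  have h1 := hT1_real m k hk
  have h2 := hT2_real m G
  have h3 := hT3_real m d r hd
  unfold fin at h
  have h4 : 16488 * P * (T1 m k + T2 m G) + 10000000000 * T3 m d r < 10000000000000000 := by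
    have := Nat.le_of_ble_eq_true h
    omega
  have h5 : 16488 * (P : ℝ) * (T1 m k + T2 m G) + 10000000000 * T3 m d r
      < 10000000000000000 := by exact_mod_cast h4
  generalize ((T1 m k : ℕ) : ℝ) = t1 at *
  generalize ((T2 m G : ℕ) : ℝ) = t2 at *
  generalize ((T3 m d r : ℕ) : ℝ) = t3 at *
  generalize 4 / (((m : ℝ) + 2) * ((k : ℝ) / 1000000) ^ 2) = u1 at *
  generalize 8 / 25 * (m : ℝ) * ((G : ℝ) / 5000000) ^ ((m - 2) / 2) = u2 at *
  generalize (r : ℝ) / 1000000 * (1 - (d : ℝ) / 1000000) ^ ((m - 1) / 2) = u3 at *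
  have hP : (0 : ℝ) ≤ P := Nat.cast_nonneg P
  have h6 : 1.6488 * ((P : ℝ) / 1000000) * (u1 + u2) ≤
      1.6488 * ((P : ℝ) / 1000000) * (t1 / 1000000 + t2 / 1000000) :=
    mul_le_mul_of_nonneg_left (add_le_add h1 h2) (by positivity)
  have h7 : 1.6488 * ((P : ℝ) / 1000000) * (t1 / 1000000 + t2 / 1000000) + t3 / 1000000
      = (16488 * P * (t1 + t2) + 10000000000 * t3) / 10000000000000000 := by ring
  have h8 : (16488 * (P : ℝ) * (t1 + t2) + 10000000000 * t3) / 10000000000000000 < 1 := by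
    rw [div_lt_one (by norm_num)]
    exact h5
  linarith

/-- SEN-SMALL -/
theorem main : Pool.Agent.W470.Sen.StSmall := by
  intro m hm5 hm79 a D Φ ha ha1 hD hD1 hΦ0 hΦ1 hΦ2
  obtain ⟨p, hp⟩ : ∃ p : ℕ, p = ⌊64 * (1 - a)⌋₊ := ⟨_, rfl⟩
  have hnn : 0 ≤ 64 * (1 - a) := by linarith
  have hfl : (p : ℝ) ≤ 64 * (1 - a) := by rw [hp]; exact Nat.floor_le hnn
  have hfu : 64 * (1 - a) < (p : ℝ) + 1 := by rw [hp]; exact Nat.lt_floor_add_one _
  have hp64 : p < 64 := by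
    have : (p : ℝ) < 64 := by linarith
    exact_mod_cast this
  have hchk := all_ok (m - 5) (by omega) p hp64
  rw [show m - 5 + 5 = m by omega] at hchk
  unfold chk at hchk
  rw [Bool.and_eq_true, Bool.and_eq_true, Bool.and_eq_true] at hchk
  obtain ⟨⟨⟨c1, c2⟩, c3⟩, c4⟩ := hchk
  have c1 := Nat.le_of_ble_eq_true c1
  have c2 := Nat.le_of_ble_eq_true c2
  have c3 := Nat.le_of_ble_eq_true c3
  have hdr := hd_real m p hp64
  generalize dN m p = d at *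
  have hkr := hk_real p d hp64
  have hkd : d ≤ kN p d := Nat.le_add_right _ _
  generalize kN p d = k at *
  have hk1 : 1 ≤ k := c2.trans hkd
  have hg1 : 5000000 ≤ GN k d + 3 * k := by unfold GN; omega
  have hg2 : 5000000 ≤ GN k d + 5 * d := by unfold GN; omega
  have hg3 : GN k d ≤ 5000000 := by unfold GN; omega
  generalize GN k d = G at *
  have hrr := hr_real m p hm5 hp64
  generalize rN m p = r at *
  have hf := fin_real m d k G r _ hk1 c3 c4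
  have hk1' : (1 : ℝ) ≤ k := by exact_mod_cast hk1
  have hd1' : (1 : ℝ) ≤ d := by exact_mod_cast c2
  have hg1' : (5000000 : ℝ) ≤ G + 3 * k := by exact_mod_cast hg1
  have hg2' : (5000000 : ℝ) ≤ G + 5 * d := by exact_mod_cast hg2
  have hg3' : (G : ℝ) ≤ 5000000 := by exact_mod_cast hg3
  have hp0 : (0 : ℝ) ≤ p := Nat.cast_nonneg p
  have hp63 : (p : ℝ) + 1 ≤ 64 := by exact_mod_cast hp64
  refine core m hm5 a D Φ ((p : ℝ) / 64) (((p : ℝ) + 1) / 64) ((d : ℝ) / 1000000)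
    ((k : ℝ) / 1000000) ((G : ℝ) / 5000000) ((r : ℝ) / 1000000)
    (((min (P1 p) (P2 p r) : ℕ) : ℝ) / 1000000) (((tb.getD p 0 : ℕ) : ℝ) / 1000000)
    ha ha1 hD hD1 hΦ0 hΦ1 hΦ2 (by positivity) (by linarith) (by linarith) (by linarith)
    (by positivity) hdr (by positivity) hkr (by linarith) (by linarith) (by linarith)
    (by positivity) hrr ?_ hf
  rcases le_total (P1 p) (P2 p r) with h | h
  · rw [min_eq_left h]
    refine Or.inl ⟨by positivity, ?_, hP1_real p hp64⟩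
    have hc : ((64 - p : ℕ) : ℝ) = 64 - (p : ℝ) := by
      rw [Nat.cast_sub (by omega)]; norm_num
    have hsq : (64 - p) ^ 2 ≤ 4096 := by
      calc (64 - p) ^ 2 ≤ 64 ^ 2 := Nat.pow_le_pow_left (by omega) 2
        _ = 4096 := by norm_num
    have hc2 : ((4096 - (64 - p) ^ 2 : ℕ) : ℝ) = 4096 - (64 - (p : ℝ)) ^ 2 := by
      rw [Nat.cast_sub hsq]; push_cast [hc]; ring
    have c1' : ((tb.getD p 0 : ℕ) : ℝ) ^ 2 * 4096 ≤
        1000000000000 * (4096 - (64 - (p : ℝ)) ^ 2) := by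
      rw [← hc2]; exact_mod_cast c1
    generalize ((tb.getD p 0 : ℕ) : ℝ) = b at *
    calc (b / 1000000) ^ 2 = (b ^ 2 * 4096) / 4096000000000000 := by ring
      _ ≤ (1000000000000 * (4096 - (64 - (p : ℝ)) ^ 2)) / 4096000000000000 :=
          div_le_div_of_nonneg_right c1' (by norm_num)
      _ = _ := by ring
  · rw [min_eq_right h]
    exact Or.inr (hP2_real p r hp64)

end Pool.Agent.W64.Sen
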